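import Pool.Agent.Y475.CP4Cert

/-!
# No complex on `Z_31` generates a perfect equilibrium triangulation of `CP^4`

The vertices of a perfect equilibrium triangulation of `CP^4` are the `31` vertices of the central
torus (`Sum.inl x`, `x : ZMod 31`) and five further vertices `p_i` (`Sum.inr i`, `i : ZMod 5`).
Simplicial complexes are sets of nonempty finite vertex sets, closed under nonempty subsets.

We only use combinatorial properties which every equilibrium triangulation has:

* `C I ∩ C J = C (I ∪ J)` (the zones are the intersections of the five basic zones);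
* `C I` is pure of dimension `9 - |I|` (it triangulates `(S^1)^(|I|-1) × B^(10-2|I|)`);
* a face of codimension one of `C I` which lies in only one facet of `C I` is a boundary face, and
  the boundary of `C I` is the union of the zones `C (I ∪ {j})`, `j ∉ I`.
-/

namespace Pool.Agent.Results.MP_7acde3_gt.NoPerfectEquilibrium

/-- The vertices: `Sum.inl x` on the central torus, `Sum.inr i` is the further vertex `p_i`. -/
abbrev Vert := ZMod 31 ⊕ ZMod 5

/-- `τ(x) = x + 1`, `τ(p_i) = p_i`. -/
def tau : Vert → Vert := Sum.map (fun x => x + 1) id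

/-- `ρ(x) = -x`, `ρ(p_i) = p_i`. -/
def rho : Vert → Vert := Sum.map (fun x => -x) id

/-- `σ(x) = 2x`, `σ(p_i) = p_{i+1}`. -/
def sigma : Vert → Vert := Sum.map (fun x => 2 * x) (fun i => i + 1)

/-- Abstract simplicial complexes: sets of nonempty finite sets, closed under nonempty subsets. -/
def IsComplex {α : Type} (K : Set (Finset α)) : Prop :=
  ∀ A ∈ K, A.Nonempty ∧ ∀ B : Finset α, B ⊆ A → B.Nonempty → B ∈ K

/-- The facet `{x, x + b₁, x + b₁ + b₂, ...}` of a permcycle. -/
def permFacet (x : ZMod 31) (b : List ℕ) : Finset (ZMod 31) :=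
  ((b.scanl (· + ·) 0).map (fun s : ℕ => x + (s : ZMod 31))).toFinset

/-- The permcycle `1 2 4 8 16` on `Z_31`: all nonempty subsets of the facets
`{x, x + b₁, ..., x + b₁ + ... + b₄}` with `(b₁, ..., b₄)` a permutation of `(1, 2, 4, 8)`. -/
def centralTorus : Set (Finset (ZMod 31)) :=
  {A | A.Nonempty ∧ ∃ (x : ZMod 31) (b : List ℕ), b.Perm [1, 2, 4, 8] ∧ A ⊆ permFacet x b}

/-- The cone `p_0 * S`. -/
def cone (S : Set (Finset (ZMod 31))) : Set (Finset Vert) :=
  {A | A.Nonempty ∧ ∃ B ∈ S, A ⊆ insert (Sum.inr 0) (B.image Sum.inl)}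

/-- The complex generated by `S`: the union of the `σ^j(p_0 * S)`, `j = 0, ..., 4`. -/
def generated (S : Set (Finset (ZMod 31))) : Set (Finset Vert) :=
  {A | ∃ j < 5, ∃ A₀ ∈ cone S, A = A₀.image (sigma^[j])}

/-- `C` (a subcomplex `C I` for every nonempty `I ⊆ Z_5`) is a system of zones which makes the
complex `K` on the vertex set `Vert` a perfect equilibrium triangulation, as far as the following
combinatorial properties are concerned. -/
structure IsPerfectEquilibrium (K : Set (Finset Vert))
    (C : Finset (ZMod 5) → Set (Finset Vert)) : Prop where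
  /-- the zones are simplicial complexes -/
  complex : ∀ I, I.Nonempty → IsComplex (C I)
  /-- the five zones `C {i}` cover `K` -/
  cover : ∀ A, A ∈ K ↔ ∃ i, A ∈ C {i}
  /-- `C I ∩ C J = C (I ∪ J)` -/
  inter : ∀ I J, I.Nonempty → J.Nonempty → C I ∩ C J = C (I ∪ J)
  /-- `C I` is pure of dimension `9 - |I|` -/
  pure : ∀ I, I.Nonempty → ∀ A ∈ C I, ∃ F ∈ C I, A ⊆ F ∧ F.card = 10 - I.card
  /-- a face of codimension one which lies in only one facet of `C I` lies in a smaller zone -/
  boundary : ∀ I, I.Nonempty → ∀ A ∈ C I, A.card = 9 - I.card → (∀ j, j ∉ I → A ∉ C (insert j I)) →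
    ∀ F ∈ C I, A ⊆ F → F.card = 10 - I.card → ∃ F' ∈ C I, F' ≠ F ∧ A ⊆ F' ∧ F'.card = 10 - I.card
  /-- the intersection of all zones is the permcycle `1 2 4 8 16` -/
  torus : ∀ A, A ∈ C Finset.univ ↔ ∃ B ∈ centralTorus, A = B.image Sum.inl
  /-- the zone `C {j}` has exactly one vertex outside the central torus, namely `p_j` -/
  apex : ∀ i j, {Sum.inr i} ∈ C {j} ↔ i = j
  /-- `τ` is an automorphism of `K` -/
  tau_mem : ∀ A ∈ K, A.image tau ∈ K
  /-- `ρ` is an automorphism of `K` -/
  rho_mem : ∀ A ∈ K, A.image rho ∈ K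
  /-- `σ` is an automorphism of `K` -/
  sigma_mem : ∀ A ∈ K, A.image sigma ∈ K

/-! ### Symmetric zone systems -/

/-- index set of the mask `J` -/
def Ic (J : ℕ) : Finset (ZMod 5) := Finset.univ.filter (fun i : ZMod 5 => J.testBit i.val = false)

theorem Ic_and (J K : ℕ) : Ic (J &&& K) = Ic J ∪ Ic K := by
  ext i
  simp only [Ic, Finset.mem_filter, Finset.mem_univ, true_and, Finset.mem_union, Nat.testBit_and,
    Bool.and_eq_false_iff]

theorem Ic_nonempty : ∀ J < 31, (Ic J).Nonempty := by decide

theorem Ic_sigma : ∀ J < 31, Ic (J * 2 % 31) = (Ic J).image (fun i => i + 1) := by decide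

theorem Ic_card : ∀ J < 31, (Ic J).card = 5 - Y475.CP4.pc J := by decide

theorem Ic_zero : Ic 0 = Finset.univ := by decide

theorem Ic_xor : ∀ J < 31, ∀ i : ZMod 5, J.testBit i.val = true →
    Ic (J ^^^ 2 ^ i.val) = insert i (Ic J) := by decide

variable {K : Set (Finset Vert)} {C : Finset (ZMod 5) → Set (Finset Vert)}

section sym

variable (hC : IsPerfectEquilibrium K C)

include hC

theorem mono {I J : Finset (ZMod 5)} (hI : I.Nonempty) (hIJ : I ⊆ J) {A : Finset Vert}
    (hA : A ∈ C J) : A ∈ C I := by
  have h1 := hC.inter I J hI (hI.mono hIJ)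
  rw [Finset.union_eq_right.2 hIJ] at h1
  rw [← h1] at hA
  exact hA.1

/-- faces of the zones with at least two indices have no vertex `p_i` -/
theorem exists_lift {I : Finset (ZMod 5)} (hI : 2 ≤ I.card) {F : Finset Vert} (hF : F ∈ C I) :
    ∃ B : Finset (ZMod 31), F = B.image Sum.inl := by
  have hne : I.Nonempty := Finset.card_pos.1 (by omega)
  have hno : ∀ i : ZMod 5, Sum.inr i ∉ F := by
    intro i hi
    have h1 : ({Sum.inr i} : Finset Vert) ∈ C I :=
      (hC.complex I hne F hF).2 _ (Finset.singleton_subset_iff.2 hi) (Finset.singleton_nonempty _)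
    obtain ⟨a, ha, b, hb, hab⟩ := Finset.one_lt_card.1 (show 1 < I.card by omega)
    have h2 := (hC.apex i a).1 (mono hC (Finset.singleton_nonempty a)
      (Finset.singleton_subset_iff.2 ha) h1)
    have h3 := (hC.apex i b).1 (mono hC (Finset.singleton_nonempty b)
      (Finset.singleton_subset_iff.2 hb) h1)
    exact hab (h2.symm.trans h3)
  refine ⟨Finset.univ.filter (fun x => Sum.inl x ∈ F), ?_⟩
  ext y
  simp only [Finset.mem_image, Finset.mem_filter, Finset.mem_univ, true_and]
  constructor
  · intro hy
    cases y with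
    | inl x => exact ⟨x, hy, rfl⟩
    | inr i => exact absurd hy (hno i)
  · rintro ⟨x, hx, rfl⟩
    exact hx

/-- a zone system whose zones are permuted by `τ`, `ρ`, `σ` gives the system `Sys` -/
theorem sys (ht : ∀ I, I.Nonempty → ∀ A ∈ C I, A.image tau ∈ C I)
    (hr : ∀ I, I.Nonempty → ∀ A ∈ C I, A.image rho ∈ C I)
    (hs : ∀ I, I.Nonempty → ∀ A ∈ C I, A.image sigma ∈ C (I.image (fun i => i + 1))) :
    Y475.CP4.Sys (fun J A => A.image Sum.inl ∈ C (Ic J)) where
  inter := by
    intro J K A hJ hK h1 h2
    rw [Ic_and, ← hC.inter _ _ (Ic_nonempty J hJ) (Ic_nonempty K hK)]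
    exact ⟨h1, h2⟩
  mono := by
    intro J K A hJ hK hJK h
    have h1 : Ic J = Ic J ∪ Ic K := by rw [← Ic_and, hJK]
    rw [h1, ← hC.inter _ _ (Ic_nonempty J hJ) (Ic_nonempty K hK)] at h
    exact h.2
  sub := by
    intro J A B hJ hBA hB h
    exact (hC.complex _ (Ic_nonempty J hJ) _ h).2 _ (Finset.image_subset_image hBA)
      (hB.image _)
  tau := by
    intro J A hJ h
    have := ht _ (Ic_nonempty J hJ) _ h
    rw [Finset.image_image] at this
    rw [Finset.image_image]
    exact this
  rho := by
    intro J A hJ h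
    have := hr _ (Ic_nonempty J hJ) _ h
    rw [Finset.image_image] at this
    rw [Finset.image_image]
    exact this
  sig := by
    intro J A hJ h
    have := hs _ (Ic_nonempty J hJ) _ h
    rw [Finset.image_image] at this
    rw [Finset.image_image, Ic_sigma J hJ]
    exact this
  tor := by
    intro A
    rw [Ic_zero, hC.torus]
    constructor
    · rintro ⟨B, hB, h⟩
      have : A = B := Finset.image_injective Sum.inl_injective h
      rw [this]
      exact hB
    · intro h
      exact ⟨A, h, rfl⟩
  ext := by
    intro J A hJ h1 h3 hcard hA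
    have hI := Ic_card J hJ
    obtain ⟨F, hF, hAF, hFc⟩ := hC.pure _ (Ic_nonempty J hJ) _ hA
    obtain ⟨B, rfl⟩ := exists_lift hC (by omega) hF
    rw [Finset.card_image_of_injective _ Sum.inl_injective] at hFc
    have hAB : A ⊆ B := by
      intro x hx
      have := hAF (Finset.mem_image_of_mem Sum.inl hx)
      rw [Finset.mem_image] at this
      obtain ⟨y, hy, hyx⟩ := this
      rwa [← Sum.inl_injective hyx]
    obtain ⟨v, hvB, hvA⟩ := Finset.exists_of_ssubset (Finset.ssubset_iff_subset_ne.2 ⟨hAB, by
      intro h; rw [h] at hcard; omega⟩)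
    refine ⟨v, hvA, ?_⟩
    have hB : insert v A = B := by
      apply Finset.eq_of_subset_of_card_le
      · exact Finset.insert_subset hvB hAB
      · rw [Finset.card_insert_of_notMem hvA]; omega
    rw [hB]
    exact hF
  int := by
    intro J A v hJ h1 h3 hcard hvA hv hlow
    have hI := Ic_card J hJ
    have hAv : A.image Sum.inl ⊆ (insert v A).image (Sum.inl : ZMod 31 → Vert) :=
      Finset.image_subset_image (Finset.subset_insert v A)
    have hAne : A.Nonempty := Finset.card_pos.1 (by omega)
    have hA : A.image Sum.inl ∈ C (Ic J) :=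
      (hC.complex _ (Ic_nonempty J hJ) _ hv).2 _ hAv (hAne.image _)
    obtain ⟨F', hF', hne, hAF', hc'⟩ := hC.boundary _ (Ic_nonempty J hJ) _ hA
      (by rw [Finset.card_image_of_injective _ Sum.inl_injective]; omega)
      (by
        intro j hj
        have htb : J.testBit j.val = true := by
          by_contra hc
          apply hj
          simp only [Ic, Finset.mem_filter, Finset.mem_univ, true_and]
          simpa using hc
        have := hlow j.val (ZMod.val_lt j) htb
        rwa [Ic_xor J hJ j htb] at this)
      _ hv hAv (by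
        rw [Finset.card_image_of_injective _ Sum.inl_injective, Finset.card_insert_of_notMem hvA]
        omega)
    obtain ⟨B, rfl⟩ := exists_lift hC (by omega) hF'
    rw [Finset.card_image_of_injective _ Sum.inl_injective] at hc'
    have hAB : A ⊆ B := by
      intro x hx
      have := hAF' (Finset.mem_image_of_mem Sum.inl hx)
      rw [Finset.mem_image] at this
      obtain ⟨y, hy, hyx⟩ := this
      rwa [← Sum.inl_injective hyx]
    obtain ⟨v', hvB, hvA'⟩ := Finset.exists_of_ssubset (Finset.ssubset_iff_subset_ne.2 ⟨hAB, by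
      intro h; rw [h] at hcard; omega⟩)
    have hB : insert v' A = B := by
      apply Finset.eq_of_subset_of_card_le
      · exact Finset.insert_subset hvB hAB
      · rw [Finset.card_insert_of_notMem hvA']; omega
    refine ⟨v', hvA', ?_, ?_⟩
    · rintro rfl
      exact hne (by rw [hB])
    · rw [hB]
      exact hF'

/-- No perfect equilibrium triangulation has zones permuted by `τ`, `ρ`, `σ`. -/
theorem no_symmetric (ht : ∀ I, I.Nonempty → ∀ A ∈ C I, A.image tau ∈ C I)
    (hr : ∀ I, I.Nonempty → ∀ A ∈ C I, A.image rho ∈ C I)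
    (hs : ∀ I, I.Nonempty → ∀ A ∈ C I, A.image sigma ∈ C (I.image (fun i => i + 1))) : False :=
  Y475.CP4.Cert.contra (sys hC ht hr hs)

theorem mem_iff {I : Finset (ZMod 5)} (hI : I.Nonempty) (A : Finset Vert) :
    A ∈ C I ↔ ∀ i ∈ I, A ∈ C {i} := by
  constructor
  · intro h i hi
    exact mono hC (Finset.singleton_nonempty i) (Finset.singleton_subset_iff.2 hi) h
  · intro h
    induction hI using Finset.Nonempty.cons_induction with
    | singleton a => exact h a (Finset.mem_singleton_self a)
    | cons a s ha hs ih =>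
      rw [Finset.cons_eq_insert, Finset.insert_eq,
        ← hC.inter {a} s (Finset.singleton_nonempty a) hs]
      exact ⟨h a (Finset.mem_cons_self a s), ih (fun i hi => h i (Finset.mem_cons_of_mem hi))⟩

end sym

theorem sigma_injective : Function.Injective sigma := by
  apply Sum.map_injective.2
  constructor
  · intro x y h
    have h2 : (2 : ZMod 31) * x = 2 * y := h
    have h3 : (16 : ZMod 31) * (2 * x) = 16 * (2 * y) := by rw [h2]
    have h32 : (16 : ZMod 31) * 2 = 1 := by decide
    rwa [← mul_assoc, ← mul_assoc, h32, one_mul, one_mul] at h3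
  · exact add_left_injective 1

theorem sigma_iter_inr (j : ℕ) : ∀ i : ZMod 5, sigma^[j] (Sum.inr i) = Sum.inr (i + j) := by
  induction j with
  | zero => intro i; simp
  | succ j ih =>
    intro i
    rw [Function.iterate_succ_apply]
    have : sigma (Sum.inr i) = Sum.inr (i + 1) := rfl
    rw [this, ih]
    congr 1
    push_cast
    ring

/-- a face with nine vertices of a generated complex has a vertex `p_j` -/
theorem apex_of_card {S : Set (Finset (ZMod 31))} (hS : ∀ B ∈ S, B.card ≤ 8) {F : Finset Vert}
    (hF : F ∈ generated S) (hc : F.card = 9) : ∃ j : ZMod 5, Sum.inr j ∈ F := by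
  obtain ⟨j, _, A₀, ⟨_, B, hB, hsub⟩, rfl⟩ := hF
  rw [Finset.card_image_of_injective _ (sigma_injective.iterate j)] at hc
  have hle : (insert (Sum.inr 0 : Vert) (B.image (Sum.inl : ZMod 31 → Vert))).card ≤ 9 := by
    refine (Finset.card_insert_le _ _).trans ?_
    rw [Finset.card_image_of_injective _ Sum.inl_injective]
    have := hS B hB
    omega
  have heq : A₀ = insert (Sum.inr 0 : Vert) (B.image (Sum.inl : ZMod 31 → Vert)) :=
    Finset.eq_of_subset_of_card_le hsub (by rw [hc]; exact hle)
  refine ⟨0 + j, ?_⟩
  rw [← sigma_iter_inr]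
  apply Finset.mem_image_of_mem
  rw [heq]
  exact Finset.mem_insert_self _ _

/-- **No perfect equilibrium triangulation of `CP^4` is generated by a complex on `Z_31`.**
Let `S` be a simplicial complex of dimension at most `7` on the vertex set `Z_31`, for instance a
Hopf triangulation of `S^7`. Then there is no system of zones which makes the complex generated by
`S` a perfect equilibrium triangulation. -/
theorem result (S : Set (Finset (ZMod 31))) (_hS : IsComplex S) (hdim : ∀ B ∈ S, B.card ≤ 8) :
    ¬ ∃ C : Finset (ZMod 5) → Set (Finset Vert), IsPerfectEquilibrium (generated S) C := by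
  rintro ⟨C, hC⟩
  -- the basic zones are the stars of the five further vertices
  have star : ∀ (i : ZMod 5) (A : Finset Vert), A ∈ C {i} ↔
      A.Nonempty ∧ insert (Sum.inr i) A ∈ generated S := by
    intro i A
    constructor
    · intro hA
      have hne := (hC.complex {i} (Finset.singleton_nonempty i) A hA).1
      refine ⟨hne, ?_⟩
      obtain ⟨F, hF, hAF, hFc⟩ := hC.pure {i} (Finset.singleton_nonempty i) A hA
      have hFK : F ∈ generated S := (hC.cover F).2 ⟨i, hF⟩
      obtain ⟨j, hj⟩ := apex_of_card hdim hFK (by rw [hFc, Finset.card_singleton])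
      have hji : ({Sum.inr j} : Finset Vert) ∈ C {i} :=
        (hC.complex {i} (Finset.singleton_nonempty i) F hF).2 _
          (Finset.singleton_subset_iff.2 hj) (Finset.singleton_nonempty _)
      have hji' : j = i := (hC.apex j i).1 hji
      subst hji'
      rw [hC.cover]
      exact ⟨j, (hC.complex {j} (Finset.singleton_nonempty j) F hF).2 _
        (Finset.insert_subset hj hAF) (Finset.insert_nonempty _ _)⟩
    · rintro ⟨hne, hK⟩
      obtain ⟨j, hj⟩ := (hC.cover _).1 hK
      have hcx := hC.complex {j} (Finset.singleton_nonempty j) _ hj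
      have hij : i = j := (hC.apex i j).1
        (hcx.2 _ (Finset.singleton_subset_iff.2 (Finset.mem_insert_self _ _))
          (Finset.singleton_nonempty _))
      rw [hij]
      exact hcx.2 _ (by rw [hij]; exact Finset.subset_insert _ _) hne
  refine no_symmetric hC ?_ ?_ ?_
  · intro I hI A hA
    rw [mem_iff hC hI] at hA ⊢
    intro i hi
    have h1 := (star i A).1 (hA i hi)
    rw [star]
    refine ⟨h1.1.image _, ?_⟩
    have h2 := hC.tau_mem _ h1.2
    rw [Finset.image_insert] at h2
    exact h2
  · intro I hI A hA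
    rw [mem_iff hC hI] at hA ⊢
    intro i hi
    have h1 := (star i A).1 (hA i hi)
    rw [star]
    refine ⟨h1.1.image _, ?_⟩
    have h2 := hC.rho_mem _ h1.2
    rw [Finset.image_insert] at h2
    exact h2
  · intro I hI A hA
    rw [mem_iff hC hI] at hA
    rw [mem_iff hC (hI.image _)]
    intro i hi
    rw [Finset.mem_image] at hi
    obtain ⟨k, hk, rfl⟩ := hi
    have h1 := (star k A).1 (hA k hk)
    rw [star]
    refine ⟨h1.1.image _, ?_⟩
    have h2 := hC.sigma_mem _ h1.2
    rw [Finset.image_insert] at h2
    exact h2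

end Pool.Agent.Results.MP_7acde3_gt.NoPerfectEquilibrium
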